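import Pool.Agent.Helper44.AC.LIM
import Pool.Agent.Helper62.AC.COM
import Pool.Agent.Helper81.AC.FIN
import Pool.Agent.Helper81.AC.R2C
import Pool.Agent.Helper70.AC.UB
import Pool.Agent.Helper80.AC.HUL
import Pool.Agent.Helper25.AC.LAM
import Pool.Agent.Helper11.AC.FUN
import Pool.Agent.Helper49.AC.NOT
import Pool.Agent.Helper14.AC.CL
import Pool.Agent.Helper4.AC.ALG
import Pool.Agent.Helper26.AC.DOM

/-!
# Assembly of the sheet AC (MP_04557e_an, Q2, the half `property => approximation property`)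

The fallback half for `EveryBanachSpace` of helper31.
-/

open Pool.Agent.Helper30.AC

namespace Pool.Agent.Helper30.ACAll

universe u v

theorem fin : ST_FIN.{u, v} :=
  Pool.Agent.Helper81.AC.st_FIN
    Pool.Agent.Helper62.AC.st_COM
    (Pool.Agent.Helper11.AC.st_FUN Pool.Agent.Helper44.AC.st_LIM Pool.Agent.Helper25.AC.st_LAM)
    (Pool.Agent.Helper49.AC.st_NOT
      Pool.Agent.Helper62.AC.st_COM
      (Pool.Agent.Helper14.AC.st_CL Pool.Agent.Helper62.AC.st_COM Pool.Agent.Helper4.AC.st_ALG)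
      Pool.Agent.Helper70.AC.st_UB
      Pool.Agent.Helper26.AC.st_DOM)
    Pool.Agent.Helper80.AC.st_HUL
    Pool.Agent.Helper81.AC.st_R2C

end Pool.Agent.Helper30.ACAll
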