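import Pool.Agent.Helper30.AC.All
import Pool.Agent.Helper31.BQ.Stmts3

/-!
# `QP E → AP E` (`ST_FN` of the sheet BE of helper31) from the sheet AC
-/

set_option autoImplicit false

open Filter Topology

namespace Pool.Agent.Helper30.ACFN

universe u

theorem fn : Pool.Agent.Helper31.BQ.ST_FN.{u} := by
  intro E _ _ _ hQ
  by_contra hAP
  have hnot : ¬ Pool.Agent.Helper30.AC.HasApproximationProperty ℝ E := by
    intro h
    exact hAP h
  obtain ⟨X, hXc, hXv, f, hfa, ⟨F, hFc, hFt⟩, hfn⟩ :=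
    Pool.Agent.Helper30.ACAll.fin.{u, 0} ℝ E hnot
  let dn : (ULift.{u} ℕ → ℕ → ℝ) → (ℕ → ℕ → ℝ) := fun p n => p ⟨n⟩
  let upp : (ℕ → ℕ → ℝ) → (ULift.{u} ℕ → ℕ → ℝ) := fun q i => q i.down
  have hdn : Continuous dn := continuous_pi fun n => continuous_apply _
  have hup : Continuous upp := continuous_pi fun i => continuous_apply _
  have hX' : IsCompact (upp '' X) := hXc.image hup
  have hmem : ∀ p : (upp '' X : Set _), dn p.1 ∈ X := by
    rintro ⟨p, q, hq, rfl⟩
    exact hq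
  have hX'v : Convex ℝ (upp '' X) := by
    rintro _ ⟨a, ha, rfl⟩ _ ⟨b, hb, rfl⟩ s t hs ht hst
    exact ⟨s • a + t • b, hXv ha hb hs ht hst, rfl⟩
  let g : (upp '' X : Set _) → X := fun p => ⟨dn p.1, hmem p⟩
  have hg : Continuous g := (hdn.comp continuous_subtype_val).subtype_mk _
  let k : X → (upp '' X : Set _) := fun q => ⟨upp q.1, q.1, q.2, rfl⟩
  have hk : Continuous k := (hup.comp continuous_subtype_val).subtype_mk _
  have hgk : ∀ q, g (k q) = q := fun q => rfl
  have haff : Pool.Agent.Helper31.BQ.IsAffineOn (upp '' X) (fun p => f (g p)) := by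
    intro x y z t h0 h1 hz
    refine hfa (g x) (g y) (g z) t h0 h1 ?_
    funext n
    exact congrFun hz ⟨n⟩
  have hbo : Pool.Agent.Helper31.BQ.IsBaireOne (fun p => f (g p)) :=
    ⟨fun n p => F n (g p), fun n => (hFc n).comp hg, fun p => hFt (g p)⟩
  obtain ⟨G, hG, hGt⟩ := hQ (ULift.{u} ℕ → ℕ → ℝ) (upp '' X) hX' hX'v (fun p => f (g p)) haff hbo
  refine hfn ⟨fun n q => G n (k q), fun n => ⟨(hG n).1.comp hk, ?_⟩, fun q => hGt (k q)⟩
  intro x y z t h0 h1 hz
  refine (hG n).2 (k x) (k y) (k z) t h0 h1 ?_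
  funext i
  exact congrFun hz i.down

end Pool.Agent.Helper30.ACFN
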