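import Mathlib

/-!
# A Banach space without the approximation property: sheet AC

`K` is a compact convex symmetric set in `E`, `y` a sequence of functionals which separates the
points of `K`.  `CC K` are the pairs `(τ, T)` with `1 ≥ τ 0 ≥ τ 1 ≥ ... ≥ 0`, `T n ∈ τ n • K`,
`T n - T (n + 1) ∈ (τ n - τ (n + 1)) • K`; `XX K y` remembers only `y i (T n)`, `i ≤ n`;
`f x = lim T n` is affine and Baire-one.
-/

set_option autoImplicit false

namespace Pool.Agent.Helper30.AC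

open Filter Topology

universe u v

/-- `f : X → E` is affine on the convex set `X`: whenever a point `z` of `X` equals
`t x + (1 - t) y` with `x, y` in `X` and `0 ≤ t ≤ 1`, then `f z = t f x + (1 - t) f y`. -/
def IsAffineOn {V E : Type*} [AddCommGroup V] [Module ℝ V] [AddCommGroup E] [Module ℝ E]
    (X : Set V) (f : X → E) : Prop :=
  ∀ (x y z : X) (t : ℝ), 0 ≤ t → t ≤ 1 →
    (z : V) = t • (x : V) + (1 - t) • (y : V) → f z = t • f x + (1 - t) • f y

/-- `f` is of the first Baire class: a pointwise limit of a sequence of continuous maps. -/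
def IsBaireOne {X E : Type*} [TopologicalSpace X] [TopologicalSpace E] (f : X → E) : Prop :=
  ∃ F : ℕ → X → E, (∀ n, Continuous (F n)) ∧ ∀ x, Tendsto (fun n => F n x) atTop (𝓝 (f x))

/-- `f` is a pointwise limit of a sequence of continuous affine maps. -/
def IsAffineBaireOne {V E : Type*} [AddCommGroup V] [Module ℝ V] [TopologicalSpace V]
    [AddCommGroup E] [Module ℝ E] [TopologicalSpace E] (X : Set V) (f : X → E) : Prop :=
  ∃ F : ℕ → X → E, (∀ n, Continuous (F n) ∧ IsAffineOn X (F n)) ∧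
    ∀ x, Tendsto (fun n => F n x) atTop (𝓝 (f x))

/-- The approximation property of a normed space `E` over `𝕜`. -/
def HasApproximationProperty (𝕜 E : Type*) [NontriviallyNormedField 𝕜] [NormedAddCommGroup E]
    [NormedSpace 𝕜 E] : Prop :=
  ∀ K : Set E, IsCompact K → ∀ ε : ℝ, 0 < ε →
    ∃ T : E →L[𝕜] E, FiniteDimensional 𝕜 (LinearMap.range (T : E →ₗ[𝕜] E)) ∧
      ∀ x ∈ K, ‖T x - x‖ < ε

/-- the pairs `(t, v)` with `0 ≤ t ≤ 1` and `v ∈ t • K` -/
def DD {E : Type*} [NormedAddCommGroup E] [NormedSpace ℝ E] (K : Set E) : Set (ℝ × E) :=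
  {p | 0 ≤ p.1 ∧ p.1 ≤ 1 ∧ ∃ k ∈ K, p.2 = p.1 • k}

/-- the sequences `(τ, T)` -/
def CC {E : Type*} [NormedAddCommGroup E] [NormedSpace ℝ E] (K : Set E) :
    Set ((ℕ → ℝ) × (ℕ → E)) :=
  {q | ∀ n, (q.1 n, q.2 n) ∈ DD K ∧ (q.1 n - q.1 (n + 1), q.2 n - q.2 (n + 1)) ∈ DD K}

/-- what is remembered of `v` at level `n` -/
def rho {E : Type*} [NormedAddCommGroup E] [NormedSpace ℝ E] (y : ℕ → E →L[ℝ] ℝ) (n : ℕ)
    (v : E) : ℕ → ℝ := fun i => if i ≤ n then y i v else 0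

/-- what is remembered of a sequence -/
def LL {E : Type*} [NormedAddCommGroup E] [NormedSpace ℝ E] (y : ℕ → E →L[ℝ] ℝ) (T : ℕ → E) :
    ℕ → ℕ → ℝ := fun n => rho y n (T n)

/-- the compact convex set in `ℝ ^ (ℕ × ℕ)` -/
def XX {E : Type*} [NormedAddCommGroup E] [NormedSpace ℝ E] (K : Set E) (y : ℕ → E →L[ℝ] ℝ) :
    Set (ℕ → ℕ → ℝ) := {x | ∃ q ∈ CC K, x = LL y q.2}

/-- compact, convex, symmetric, contains `0` -/
def Good {E : Type*} [NormedAddCommGroup E] [NormedSpace ℝ E] (K : Set E) : Prop :=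
  IsCompact K ∧ Convex ℝ K ∧ (0 : E) ∈ K ∧ ∀ v ∈ K, -v ∈ K

/-- `y` separates the points of `K` -/
def Sep {E : Type*} [NormedAddCommGroup E] [NormedSpace ℝ E] (K : Set E)
    (y : ℕ → E →L[ℝ] ℝ) : Prop := ∀ v ∈ K, ∀ w ∈ K, (∀ i, y i v = y i w) → v = w

/-- row COM: `DD K` is the image of `[0, 1] × K`; `CC K` is closed in a product of compact sets
and convex; `XX K y` is its image under a continuous linear map. -/
def ST_COM : Prop := ∀ (E : Type u) [NormedAddCommGroup E] [NormedSpace ℝ E] (K : Set E)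
  (y : ℕ → E →L[ℝ] ℝ), Good K → IsCompact (XX K y) ∧ Convex ℝ (XX K y)

/-- row LIM: `‖T n - T (n + 1)‖ ≤ (τ n - τ (n + 1)) * M`, a Cauchy sequence -/
def ST_LIM : Prop := ∀ (E : Type u) [NormedAddCommGroup E] [NormedSpace ℝ E] [CompleteSpace E]
  (K : Set E), Good K → ∀ q ∈ CC K, (∀ n, q.2 n ∈ K) ∧ ∃ l ∈ K, Tendsto q.2 atTop (𝓝 l)

/-- row LAM: compactness gives `n ≥ k` and `δ` such that `|y i v - y i w| < δ` for `i ≤ n` implies
`‖v - w‖ < ε` on `K`; then a partition of unity of tents around a finite net -/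
def ST_LAM : Prop := ∀ (E : Type u) [NormedAddCommGroup E] [NormedSpace ℝ E] (K : Set E)
  (y : ℕ → E →L[ℝ] ℝ), Good K → Sep K y → ∀ ε : ℝ, 0 < ε → ∀ k : ℕ, ∃ n, k ≤ n ∧
  ∃ lam : (ℕ → ℝ) → E, ContinuousOn lam (rho y n '' K) ∧ ∀ v ∈ K, ‖lam (rho y n v) - v‖ ≤ ε

/-- row FUN (LIM, LAM): `f x = lim T n`; it does not depend on the sequence by `Sep`;
`x ↦ lam (x n)` are the continuous maps -/
def ST_FUN : Prop := ∀ (E : Type u) [NormedAddCommGroup E] [NormedSpace ℝ E] [CompleteSpace E]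
  (K : Set E) (y : ℕ → E →L[ℝ] ℝ), Good K → Sep K y → ∃ f : XX K y → E, IsAffineOn (XX K y) f ∧
  IsBaireOne f ∧ ∀ v ∈ K, ∀ x : XX K y, x.1 = LL y (fun _ => v) → f x = v

/-- row UB: uniform boundedness (apply `bounded_of_baireOne` of Helper40/BaireAffine1.lean to
`u ↦ (b m u)_m` with values in `BoundedContinuousFunction ℕ E`, or Baire) -/
def ST_UB : Prop := ∀ (E : Type u) [NormedAddCommGroup E] [NormedSpace ℝ E] [CompleteSpace E]
  (K : Set E) (b : ℕ → K → E), Good K → (∀ m, Continuous (b m) ∧ IsAffineOn K (b m)) →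
  (∀ v, ∃ l, Tendsto (fun m => b m v) atTop (𝓝 l)) → ∃ B : ℝ, ∀ m v, ‖b m v‖ ≤ B

/-- row DOM (`exists_dom` of Helper40/BaireAffine2.lean, Hahn-Banach, dominated convergence) -/
def ST_DOM : Prop := ∀ (X : Type u) (E : Type u) [TopologicalSpace X] [CompactSpace X] [T2Space X]
  [NormedAddCommGroup E] [NormedSpace ℝ E] [CompleteSpace E] (S : Submodule ℝ C(X, E))
  (g : ℕ → C(X, E)) (h : C(X, E)) (B : ℝ), (∀ m, g m ∈ S.topologicalClosure) →
  (∀ m x, ‖g m x‖ ≤ B) → (∀ x, Tendsto (fun m => g m x) atTop (𝓝 (h x))) →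
  h ∈ S.topologicalClosure

/-- row ALG: a map which is affine on a symmetric convex set and depends only on finitely many
functionals is given by them (no topology: extend to the span, factor, extend) -/
def ST_ALG : Prop := ∀ (E : Type u) [NormedAddCommGroup E] [NormedSpace ℝ E] (K : Set E)
  (y : ℕ → E →L[ℝ] ℝ) (N : ℕ) (G : K → E), Good K → IsAffineOn K G →
  (∀ v w : K, (∀ i < N, y i v = y i w) → G v = G w) →
  ∃ (c : E) (L : ℕ → E), ∀ v : K, G v = c + ∑ i ∈ Finset.range N, y i v • L i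

/-- row CL (ALG): `x_N = LL y (fun n => if n < N then v else 0)` tends to `LL y (fun _ => v)`
uniformly in `v`; `v ↦ F x_N` depends only on `y i v`, `i < N` -/
def ST_CL : Prop := ∀ (E : Type u) [NormedAddCommGroup E] [NormedSpace ℝ E] (K : Set E)
  (y : ℕ → E →L[ℝ] ℝ) (F : XX K y → E), Good K → Continuous F → IsAffineOn (XX K y) F →
  ∃ hc : ∀ v ∈ K, LL y (fun _ => v) ∈ XX K y, ∀ ε : ℝ, 0 < ε → ∃ (N : ℕ) (c : E) (L : ℕ → E),
  ∀ (v : E) (hv : v ∈ K),
    ‖F ⟨LL y (fun _ => v), hc v hv⟩ - (c + ∑ i ∈ Finset.range N, y i v • L i)‖ ≤ ε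

/-- row NOT (COM, CL, UB, DOM): `S` = the maps `v ↦ c + ∑ y i v • L i` in `C(K, E)`; the identity
is in the closure; take the odd part -/
def ST_NOT : Prop := ∀ (E : Type u) [NormedAddCommGroup E] [NormedSpace ℝ E] [CompleteSpace E]
  (K : Set E) (y : ℕ → E →L[ℝ] ℝ) (f : XX K y → E), Good K →
  (∀ v ∈ K, ∀ x : XX K y, x.1 = LL y (fun _ => v) → f x = v) → IsAffineBaireOne (XX K y) f →
  ∀ ε : ℝ, 0 < ε → ∃ T : E →L[ℝ] E, FiniteDimensional ℝ (LinearMap.range (T : E →ₗ[ℝ] E)) ∧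
    ∀ v ∈ K, ‖T v - v‖ < ε

/-- row HUL: closed convex hull of `K0 ∪ -K0 ∪ {0}`; countably many functionals (a compact set is
separable, Hahn-Banach) -/
def ST_HUL : Prop := ∀ (E : Type u) [NormedAddCommGroup E] [NormedSpace ℝ E] [CompleteSpace E]
  (K0 : Set E), IsCompact K0 → ∃ K : Set E, Good K ∧ K0 ⊆ K ∧ ∃ y : ℕ → E →L[ℝ] ℝ, Sep K y

/-- row R2C: real finite rank operators give `𝕜`-linear ones (`T x = (S x - I • S (I • x)) / 2`
on the compact set `K ∪ I • K` if `I ≠ 0`; `T = S` if `I = 0`) -/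
def ST_R2C : Prop := ∀ (𝕜 : Type v) [RCLike 𝕜] (E : Type u) [NormedAddCommGroup E]
  [NormedSpace 𝕜 E] [NormedSpace ℝ E] [IsScalarTower ℝ 𝕜 E],
  HasApproximationProperty ℝ E → HasApproximationProperty 𝕜 E

/-- row FIN (COM, FUN, NOT, HUL, R2C) -/
def ST_FIN : Prop := ∀ (𝕜 : Type v) [RCLike 𝕜] (E : Type u) [NormedAddCommGroup E]
  [NormedSpace 𝕜 E] [NormedSpace ℝ E] [IsScalarTower ℝ 𝕜 E] [CompleteSpace E],
  ¬ HasApproximationProperty 𝕜 E → ∃ X : Set (ℕ → ℕ → ℝ), IsCompact X ∧ Convex ℝ X ∧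
  ∃ f : X → E, IsAffineOn X f ∧ IsBaireOne f ∧ ¬ IsAffineBaireOne X f

end Pool.Agent.Helper30.AC
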